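import Mathlib

/-!
# RAC1: uniqueness of the extremal walk of labels (abstract form)

A place in the dark grid is given by two labels `p` (its column strip) and `q` (its row strip); a link
keeps `p` (vertical) or `q` (horizontal).  `φ` is an additive potential with `m ≤ φ (p - q) ≤ W - m`.
A walk of `2 l + 1` links whose labels gain `l (W - 2 m)` is forced.
-/

set_option autoImplicit false

namespace Pool.Agent.Helper29.RAC1

variable {G : Type*} [AddCommGroup G]

/-- the forced walk: the labels of a walk of `2 l + 1` links with maximal gain -/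
theorem walk_unique (φ : G →+ ℤ) (Q : Set G) (v τ : G) (m W : ℤ)
    (hmin : ∀ f ∈ Q, m ≤ φ f) (hmineq : ∀ f ∈ Q, φ f = m → f = v)
    (hmax : ∀ f ∈ Q, φ f ≤ W - m) (hmaxeq : ∀ f ∈ Q, φ f = W - m → f = τ - v)
    (hU : 2 * m < W) (l : ℕ) (p q : ℕ → G)
    (hf : ∀ t ≤ 2 * l + 1, p t - q t ∈ Q)
    (hs : ∀ t < 2 * l + 1, p (t + 1) = p t ∨ q (t + 1) = q t)
    (hS : φ (q 0) + l * (W - 2 * m) < φ (q (2 * l + 1)))
    (hA : φ (p 0) + l * (W - 2 * m) ≤ φ (p (2 * l + 1)))
    (hE : φ (p (2 * l + 1)) = φ (p 0) + l * (W - 2 * m) →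
      φ (p (2 * l + 1)) - W + m < φ (q (2 * l + 1))) :
    φ (p (2 * l + 1)) = φ (p 0) + l * (W - 2 * m) ∧
      (∀ j ≤ l, p (2 * j + 1) = p 0 + j • (τ - 2 • v)) ∧
      (∀ j < l, q (2 * j + 1) = p 0 + j • (τ - 2 • v) - v) ∧
      (∀ j < l, p (2 * j + 2) = p 0 + (j + 1) • (τ - 2 • v)) ∧
      ∀ j < l, q (2 * j + 2) = p 0 + j • (τ - 2 • v) - v := by
  have lo : ∀ t ≤ 2 * l + 1, m ≤ φ (p t) - φ (q t) := fun t ht => by
    rw [← map_sub]; exact hmin _ (hf t ht)
  have hi : ∀ t ≤ 2 * l + 1, φ (p t) - φ (q t) ≤ W - m := fun t ht => by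
    rw [← map_sub]; exact hmax _ (hf t ht)
  have st : ∀ t < 2 * l + 1, φ (p (t + 1)) = φ (p t) ∨ φ (q (t + 1)) = φ (q t) := fun t ht => by
    rcases hs t ht with h | h
    · exact Or.inl (by rw [h])
    · exact Or.inr (by rw [h])
  -- two steps
  have twoA : ∀ t, t + 2 ≤ 2 * l + 1 → φ (p (t + 2)) ≤ φ (p t) + (W - 2 * m) := by
    intro t ht
    have l0 := lo t (by omega)
    have l1 := lo (t + 1) (by omega)
    have h0 := hi t (by omega)
    have h1 := hi (t + 1) (by omega)
    have h2 := hi (t + 2) (by omega)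
    rcases st t (by omega) with a | a <;> rcases st (t + 1) (by omega) with b | b <;>
      simp only [Nat.add_assoc, Nat.reduceAdd] at * <;> omega
  have twoB : ∀ t, t + 2 ≤ 2 * l + 1 → φ (q (t + 2)) ≤ φ (q t) + (W - 2 * m) := by
    intro t ht
    have l1 := lo (t + 1) (by omega)
    have l2 := lo (t + 2) (by omega)
    have h0 := hi t (by omega)
    have h1 := hi (t + 1) (by omega)
    rcases st t (by omega) with a | a <;> rcases st (t + 1) (by omega) with b | b <;>
      simp only [Nat.add_assoc, Nat.reduceAdd] at * <;> omega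
  have oddA : ∀ j, ∀ i, 2 * (i + j) + 1 ≤ 2 * l + 1 →
      φ (p (2 * (i + j) + 1)) ≤ φ (p (2 * i + 1)) + j * (W - 2 * m) := by
    intro j
    induction j with
    | zero => intro i _; simp
    | succ j ih =>
      intro i hi'
      have h1 := ih i (by omega)
      have h2 := twoA (2 * (i + j) + 1) (by omega)
      rw [show 2 * (i + (j + 1)) + 1 = 2 * (i + j) + 1 + 2 by ring]
      push_cast
      linarith
  have oddB : ∀ j, 2 * j + 1 ≤ 2 * l + 1 →
      φ (q (2 * j + 1)) ≤ φ (q 1) + j * (W - 2 * m) := by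
    intro j
    induction j with
    | zero => intro _; simp
    | succ j ih =>
      intro hi'
      have h1 := ih (by omega)
      have h2 := twoB (2 * j + 1) (by omega)
      rw [show 2 * (j + 1) + 1 = 2 * j + 1 + 2 by ring]
      push_cast
      linarith
  -- the first step keeps `p`
  have hp1 : p 1 = p 0 := by
    rcases hs 0 (by omega) with h | h
    · exact h
    · exfalso
      have h1 := oddB l le_rfl
      rw [zero_add] at h
      rw [h] at h1
      linarith
  have hend : φ (p (2 * l + 1)) = φ (p 0) + l * (W - 2 * m) := by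
    have h1 := oddA l 0 (by omega)
    rw [zero_add, mul_zero, zero_add, hp1] at h1
    exact le_antisymm h1 hA
  have hE' := hE hend
  have hodd : ∀ j ≤ l, φ (p (2 * j + 1)) = φ (p 0) + j * (W - 2 * m) := by
    intro j hj
    have h1 := oddA j 0 (by omega)
    rw [zero_add, mul_zero, zero_add, hp1] at h1
    have h2 := oddA (l - j) j (by omega)
    rw [show j + (l - j) = l by omega, hend] at h2
    have h3 : ((l - j : ℕ) : ℤ) = (l : ℤ) - j := by push_cast [hj]; ring
    rw [h3] at h2
    nlinarith
  -- the state after a pair is never the bad one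
  have good : ∀ i j, j + i = l → φ (p (2 * j + 1)) - W + m < φ (q (2 * j + 1)) := by
    intro i
    induction i with
    | zero =>
      intro j hj
      rw [show j = l by omega]
      exact hE'
    | succ i ih =>
      intro j hj
      have h1 := ih (j + 1) (by omega)
      have e0 := hodd j (by omega)
      have e1 := hodd (j + 1) (by omega)
      have l0 := lo (2 * j + 1) (by omega)
      have l1 := lo (2 * j + 2) (by omega)
      have l2 := lo (2 * j + 3) (by omega)
      have h0 := hi (2 * j + 1) (by omega)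
      have h1' := hi (2 * j + 2) (by omega)
      have h2 := hi (2 * j + 3) (by omega)
      rw [show 2 * (j + 1) + 1 = 2 * j + 3 by ring] at h1 e1
      push_cast at e1
      by_contra hcon
      rcases st (2 * j + 1) (by omega) with a | a <;> rcases st (2 * j + 2) (by omega) with b | b <;>
        simp only [Nat.add_assoc, Nat.reduceAdd] at a b <;> nlinarith
  -- the pairs
  have pair : ∀ j < l, q (2 * j + 2) = q (2 * j + 1) ∧ p (2 * j + 3) = p (2 * j + 2) ∧
      p (2 * j + 1) - q (2 * j + 1) = v ∧ p (2 * j + 2) - q (2 * j + 2) = τ - v := by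
    intro j hj
    have g1 := good (l - (j + 1)) (j + 1) (by omega)
    have e0 := hodd j (by omega)
    have e1 := hodd (j + 1) (by omega)
    have l0 := lo (2 * j + 1) (by omega)
    have l1 := lo (2 * j + 2) (by omega)
    have l2 := lo (2 * j + 3) (by omega)
    have h0 := hi (2 * j + 1) (by omega)
    have h1' := hi (2 * j + 2) (by omega)
    have h2 := hi (2 * j + 3) (by omega)
    rw [show 2 * (j + 1) + 1 = 2 * j + 3 by ring] at g1 e1
    push_cast at e1
    have s1 := hs (2 * j + 1) (by omega)
    have s2 := hs (2 * j + 2) (by omega)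
    simp only [Nat.add_assoc, Nat.reduceAdd] at s1 s2
    have hV2 : q (2 * j + 3) ≠ q (2 * j + 2) := by
      intro h
      have h' : φ (q (2 * j + 3)) = φ (q (2 * j + 2)) := by rw [h]
      rcases s1 with a | a
      · have a' : φ (p (2 * j + 2)) = φ (p (2 * j + 1)) := by rw [a]
        linarith
      · have a' : φ (q (2 * j + 2)) = φ (q (2 * j + 1)) := by rw [a]
        linarith
    have hp3 : p (2 * j + 3) = p (2 * j + 2) := s2.resolve_right hV2
    have hp3' : φ (p (2 * j + 3)) = φ (p (2 * j + 2)) := by rw [hp3]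
    have hq2 : q (2 * j + 2) = q (2 * j + 1) := by
      rcases s1 with a | a
      · exfalso
        have a' : φ (p (2 * j + 2)) = φ (p (2 * j + 1)) := by rw [a]
        linarith
      · exact a
    have hq2' : φ (q (2 * j + 2)) = φ (q (2 * j + 1)) := by rw [hq2]
    refine ⟨hq2, hp3, ?_, ?_⟩
    · apply hmineq _ (hf _ (by omega))
      rw [map_sub]
      linarith
    · apply hmaxeq _ (hf _ (by omega))
      rw [map_sub]
      linarith
  have hpodd : ∀ j ≤ l, p (2 * j + 1) = p 0 + j • (τ - 2 • v) := by
    intro j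
    induction j with
    | zero => intro _; simpa using hp1
    | succ j ih =>
      intro hj
      obtain ⟨h1, h2, h3, h4⟩ := pair j (by omega)
      rw [show 2 * (j + 1) + 1 = 2 * j + 3 by ring, h2]
      have h5 : q (2 * j + 1) = p (2 * j + 1) - v := by rw [← h3]; abel
      have h6 : p (2 * j + 2) = q (2 * j + 2) + (τ - v) := by rw [← h4]; abel
      rw [h6, h1, h5, ih (by omega), succ_nsmul (τ - 2 • v) j]
      abel
  refine ⟨hend, hpodd, ?_, ?_, ?_⟩
  · intro j hj
    obtain ⟨h1, h2, h3, h4⟩ := pair j hj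
    have h5 : q (2 * j + 1) = p (2 * j + 1) - v := by rw [← h3]; abel
    rw [h5, hpodd j hj.le]
  · intro j hj
    obtain ⟨h1, h2, h3, h4⟩ := pair j hj
    rw [← h2]
    exact hpodd (j + 1) hj
  · intro j hj
    obtain ⟨h1, h2, h3, h4⟩ := pair j hj
    have h5 : q (2 * j + 1) = p (2 * j + 1) - v := by rw [← h3]; abel
    rw [h1, h5, hpodd j hj.le]

end Pool.Agent.Helper29.RAC1
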